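import Pool.Agent.Q255.MK.Stm

/-!
# Project MK: common lemmas for SUP and FUB
-/

set_option autoImplicit false

open MeasureTheory Finset

namespace Pool.Agent.Q137.MK

open Q289.PAM Pool.Agent.Q255.RM Pool.Agent.Q255.MK

/-- the Dirichlet polynomial -/
noncomputable def Pw (c : ℕ → ℂ) (M : ℕ) (ω : Om) (t : ℝ) : ℂ :=
  ∑ m ∈ Icc 1 M, (c m * g t m) * f ω m

lemma g_cont {n : ℕ} (hn : n ≠ 0) : Continuous fun t : ℝ => g t n := by
  have h : (fun t : ℝ => g t n) = fun t => ((Real.sqrt n)⁻¹ : ℝ) *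
      Complex.exp ((-(t * Real.log n) : ℝ) * Complex.I) := funext fun t => g_eq_exp t hn
  rw [h]
  fun_prop

lemma Pw_cont (c : ℕ → ℂ) (M : ℕ) : Continuous fun p : Om × ℝ => Pw c M p.1 p.2 := by
  unfold Pw
  refine continuous_finsetSum _ fun n hn => ?_
  rw [Finset.mem_Icc] at hn
  exact (continuous_const.mul ((g_cont (by omega)).comp continuous_snd)).mul
    ((f_cont n).comp continuous_fst)

lemma Pw_cont_t (c : ℕ → ℂ) (M : ℕ) (ω : Om) : Continuous fun t : ℝ => Pw c M ω t := by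
  unfold Pw
  refine continuous_finsetSum _ fun n hn => ?_
  rw [Finset.mem_Icc] at hn
  exact (continuous_const.mul (g_cont (by omega))).mul continuous_const

lemma sq_cont (c : ℕ → ℂ) (M : ℕ) : Continuous fun p : Om × ℝ => ‖Pw c M p.1 p.2‖ ^ 2 :=
  (Pw_cont c M).norm.pow 2

lemma mean (c : ℕ → ℂ) (M : ℕ) (t : ℝ) :
    ∫ ω, ‖Pw c M ω t‖ ^ 2 ∂PT = ∑ m ∈ Icc 1 M, ‖c m‖ ^ 2 / m := by
  unfold Pw
  rw [Pool.Agent.Q299.FG.sq_int (Icc 1 M) (fun m hm => (Finset.mem_Icc.1 hm).1)]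
  refine Finset.sum_congr rfl fun m hm => ?_
  rw [Finset.mem_Icc] at hm
  have hpos : (0 : ℝ) < m := by exact_mod_cast (by omega : 0 < m)
  rw [norm_mul, norm_g t (by omega), mul_pow, inv_pow, Real.sq_sqrt hpos.le, div_eq_mul_inv]

/-- the integral over an interval of the square -/
noncomputable def Gi (c : ℕ → ℂ) (M : ℕ) (a b : ℝ) (ω : Om) : ℝ :=
  ∫ t in a..b, ‖Pw c M ω t‖ ^ 2

lemma Gi_cont (c : ℕ → ℂ) (M : ℕ) (a b : ℝ) : Continuous (Gi c M a b) :=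
  intervalIntegral.continuous_parametric_intervalIntegral_of_continuous' (sq_cont c M) a b

lemma Gi_int (c : ℕ → ℂ) (M : ℕ) {a b : ℝ} (hab : a ≤ b) :
    ∫ ω, Gi c M a b ω ∂PT = (b - a) * ∑ m ∈ Icc 1 M, ‖c m‖ ^ 2 / m := by
  have hK : IsCompact (Set.univ ×ˢ Set.Icc a b : Set (Om × ℝ)) := isCompact_univ.prod isCompact_Icc
  obtain ⟨C, hC⟩ := hK.exists_bound_of_continuousOn (sq_cont c M).continuousOn
  have hi : Integrable (Function.uncurry fun (ω : Om) (t : ℝ) => ‖Pw c M ω t‖ ^ 2)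
      (PT.prod (volume.restrict (Set.Ioc a b))) := by
    refine Integrable.of_bound (sq_cont c M).aestronglyMeasurable C ?_
    have h1 : ∀ᵐ p ∂(PT.prod (volume.restrict (Set.Ioc a b))), p.2 ∈ Set.Ioc a b := by
      have h2 : ∀ᵐ t ∂(volume.restrict (Set.Ioc a b)), t ∈ Set.Ioc a b :=
        ae_restrict_mem measurableSet_Ioc
      exact Measure.quasiMeasurePreserving_snd.ae h2
    filter_upwards [h1] with p hp
    exact hC p ⟨Set.mem_univ _, Set.Ioc_subset_Icc_self hp⟩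
  unfold Gi
  simp_rw [intervalIntegral.integral_of_le hab]
  rw [integral_integral_swap hi]
  simp_rw [mean]
  rw [integral_const]
  simp [hab]

/-- Markov -/
lemma markov {G : Om → ℝ} (hG : Continuous G) (h0 : ∀ ω, 0 ≤ G ω) {V : ℝ} (hV : 0 < V) :
    PT.real {ω | V ≤ G ω} ≤ (∫ ω, G ω ∂PT) / V := by
  rw [le_div_iff₀ hV, mul_comm]
  exact mul_meas_ge_le_integral_of_nonneg (Filter.Eventually.of_forall h0) (integrable_of_cont hG) V

lemma D_mono (k : ℕ) {N N' : ℕ} (h : N ≤ N') : D k N ≤ D k N' := by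
  unfold D
  calc ∑ m ∈ Icc 1 (N ^ k), (dk k N m : ℝ) ^ 2 / m
      ≤ ∑ m ∈ Icc 1 (N ^ k), (dk k N' m : ℝ) ^ 2 / m := by
        refine Finset.sum_le_sum fun m _ => ?_
        have h1 : (dk k N m : ℝ) ≤ dk k N' m := by exact_mod_cast dk_mono k m h
        gcongr
    _ ≤ ∑ m ∈ Icc 1 (N' ^ k), (dk k N' m : ℝ) ^ 2 / m :=
        Finset.sum_le_sum_of_subset_of_nonneg
          (Finset.Icc_subset_Icc_right (Nat.pow_le_pow_left h k)) fun m _ _ => by positivity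

lemma S_pow (k N : ℕ) (ω : Om) (t : ℝ) :
    (∑ n ∈ Icc 1 N, f ω n * g t n) ^ k = Pw (fun m => (dk k N m : ℂ)) (N ^ k) ω t := by
  rw [pow_expand]
  unfold Pw
  exact Finset.sum_congr rfl fun m _ => by ring

lemma S_norm (k N : ℕ) (ω : Om) (t : ℝ) :
    ‖∑ n ∈ Icc 1 N, f ω n * g t n‖ ^ (2 * k) =
      ‖Pw (fun m => (dk k N m : ℂ)) (N ^ k) ω t‖ ^ 2 := by
  rw [← S_pow, norm_pow, ← pow_mul, mul_comm]

lemma D_eq (k N : ℕ) : D k N = ∑ m ∈ Icc 1 (N ^ k), ‖(dk k N m : ℂ)‖ ^ 2 / m := by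
  unfold D
  exact Finset.sum_congr rfl fun m _ => by rw [Complex.norm_natCast]

end Pool.Agent.Q137.MK
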