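import Pool.Agent.Q137.MK.Base

/-!
# Project MK: FUB and HOL
-/

set_option autoImplicit false

open MeasureTheory Finset

namespace Pool.Agent.Q137.MK

open Q289.PAM Pool.Agent.Q255.RM Pool.Agent.Q255.MK

lemma Z_pow_eq (k : ℕ) (ω : Om) (j : ℕ) :
    ∀ᵐ t : ℝ, t ∈ Set.uIoc (j : ℝ) (j + 1) →
      ‖Z ω t‖ ^ (2 * k) = ‖Pw (fun m => (dk k j m : ℂ)) (j ^ k) ω t‖ ^ 2 := by
  filter_upwards [ae_floor j] with t ht h2
  unfold Z
  rw [ht h2]
  exact S_norm k j ω t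

lemma Z_ii_unit (k : ℕ) (ω : Om) (j : ℕ) :
    IntervalIntegrable (fun t => ‖Z ω t‖ ^ (2 * k)) volume (j : ℝ) ((j : ℝ) + 1) := by
  have hc : Continuous fun t : ℝ => ‖Pw (fun m => (dk k j m : ℂ)) (j ^ k) ω t‖ ^ 2 :=
    (Pw_cont_t _ _ ω).norm.pow 2
  refine (hc.intervalIntegrable _ _).congr_ae ?_
  rw [Filter.EventuallyEq, ae_restrict_iff' measurableSet_uIoc]
  filter_upwards [Z_pow_eq k ω j] with t ht h2
  exact (ht h2).symm

lemma Z_ii_nat (k : ℕ) (ω : Om) (N : ℕ) :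
    IntervalIntegrable (fun t => ‖Z ω t‖ ^ (2 * k)) volume 0 (N : ℝ) := by
  induction N with
  | zero => simp
  | succ N ih =>
    push_cast
    exact ih.trans (Z_ii_unit k ω N)

lemma Z_ii (k : ℕ) (ω : Om) {T : ℝ} (hT : 0 ≤ T) :
    IntervalIntegrable (fun t => ‖Z ω t‖ ^ (2 * k)) volume 0 T := by
  refine (Z_ii_nat k ω ⌈T⌉₊).mono_set ?_
  rw [Set.uIcc_of_le hT, Set.uIcc_of_le (Nat.cast_nonneg _)]
  exact Set.Icc_subset_Icc_right (Nat.le_ceil T)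

lemma Z_int_nat (k : ℕ) (ω : Om) (N : ℕ) :
    ∫ t in (0 : ℝ)..N, ‖Z ω t‖ ^ (2 * k) =
      ∑ j ∈ Finset.range N, Gi (fun m => (dk k j m : ℂ)) (j ^ k) j (j + 1) ω := by
  induction N with
  | zero => simp
  | succ N ih =>
    rw [Finset.sum_range_succ, ← ih]
    push_cast
    rw [← intervalIntegral.integral_add_adjacent_intervals (Z_ii_nat k ω N) (Z_ii_unit k ω N)]
    congr 1
    unfold Gi
    exact intervalIntegral.integral_congr_ae (Z_pow_eq k ω N)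

/-- **FUB** -/
theorem fub : S_FUB := by
  intro k N V hV
  obtain ⟨G, hG⟩ : ∃ G : Om → ℝ, G = fun ω =>
    ∑ j ∈ Finset.range N, Gi (fun m => (dk k j m : ℂ)) (j ^ k) j (j + 1) ω := ⟨_, rfl⟩
  have hGc : Continuous G := by
    rw [hG]
    exact continuous_finsetSum _ fun j _ => Gi_cont _ _ _ _
  have hG0 : ∀ ω, 0 ≤ G ω := by
    intro ω
    rw [hG]
    refine Finset.sum_nonneg fun j _ => ?_
    exact intervalIntegral.integral_nonneg (by linarith) fun t _ => by positivity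
  have h1 : {ω : Om | V ≤ ∫ t in (0 : ℝ)..N, ‖Z ω t‖ ^ (2 * k)} = {ω | V ≤ G ω} := by
    ext ω
    rw [Set.mem_ofPred_eq, Set.mem_ofPred_eq, Z_int_nat, hG]
  rw [h1]
  refine (markov hGc hG0 hV).trans ?_
  refine div_le_div_of_nonneg_right ?_ hV.le
  rw [hG, integral_finsetSum _ fun j _ => integrable_of_cont (Gi_cont _ _ _ _)]
  calc ∑ j ∈ Finset.range N, ∫ ω, Gi (fun m => (dk k j m : ℂ)) (j ^ k) j (j + 1) ω ∂PT
      ≤ ∑ _j ∈ Finset.range N, D k N := by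
        refine Finset.sum_le_sum fun j hj => ?_
        rw [Gi_int _ _ (by linarith), ← D_eq]
        have h2 := D_mono k (Finset.mem_range.1 hj).le
        linarith
    _ = N * D k N := by rw [Finset.sum_const, Finset.card_range, nsmul_eq_mul]

lemma rpow_split {x : ℝ} (hx : 0 ≤ x) (j : ℕ) {θ : ℝ} (h0 : 0 ≤ θ) (h1 : θ ≤ 1) :
    x ^ (2 * ((j : ℝ) + θ)) = (x ^ (2 * j)) ^ (1 - θ) * (x ^ (2 * (j + 1))) ^ θ := by
  rw [← Real.rpow_natCast x (2 * j), ← Real.rpow_natCast x (2 * (j + 1)), ← Real.rpow_mul hx,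
    ← Real.rpow_mul hx, ← Real.rpow_add_of_nonneg hx]
  · congr 1
    push_cast
    ring
  · have : 0 ≤ 1 - θ := by linarith
    positivity
  · positivity

/-- **HOL** -/
theorem hol : S_HOL := by
  intro ω T j θ B₀ B₁ hT h0 h1 hB0 hB1 hb0 hb1
  have hC : 0 < B₀ ^ (1 - θ) * B₁ ^ θ := by positivity
  by_cases hii : IntervalIntegrable (fun t => ‖Z ω t‖ ^ (2 * ((j : ℝ) + θ))) volume 0 T
  · have hpt : ∀ t, ‖Z ω t‖ ^ (2 * ((j : ℝ) + θ)) ≤ B₀ ^ (1 - θ) * B₁ ^ θ *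
        ((1 - θ) / B₀ * ‖Z ω t‖ ^ (2 * j) + θ / B₁ * ‖Z ω t‖ ^ (2 * (j + 1))) := by
      intro t
      have hz := norm_nonneg (Z ω t)
      rw [rpow_split hz j h0 h1]
      obtain ⟨u, hu⟩ : ∃ u : ℝ, u = ‖Z ω t‖ ^ (2 * j) := ⟨_, rfl⟩
      obtain ⟨v, hv⟩ : ∃ v : ℝ, v = ‖Z ω t‖ ^ (2 * (j + 1)) := ⟨_, rfl⟩
      have hu0 : 0 ≤ u := by rw [hu]; positivity
      have hv0 : 0 ≤ v := by rw [hv]; positivity
      rw [← hu, ← hv]
      have h2 := Real.geom_mean_le_arith_mean2_weighted (w₁ := 1 - θ) (w₂ := θ) (p₁ := u / B₀)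
        (p₂ := v / B₁) (by linarith) h0 (by positivity) (by positivity) (by ring)
      have h3 : u ^ (1 - θ) * v ^ θ = B₀ ^ (1 - θ) * B₁ ^ θ *
          ((u / B₀) ^ (1 - θ) * (v / B₁) ^ θ) := by
        rw [Real.div_rpow hu0 hB0.le, Real.div_rpow hv0 hB1.le]
        have e1 : B₀ ^ (1 - θ) ≠ 0 := (Real.rpow_pos_of_pos hB0 _).ne'
        have e2 : B₁ ^ θ ≠ 0 := (Real.rpow_pos_of_pos hB1 _).ne'
        field_simp
      rw [h3]
      refine (mul_le_mul_of_nonneg_left h2 hC.le).trans (le_of_eq ?_)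
      ring
    have i0 := Z_ii j ω hT
    have i1 := Z_ii (j + 1) ω hT
    have hint : ∫ t in (0 : ℝ)..T, B₀ ^ (1 - θ) * B₁ ^ θ *
        ((1 - θ) / B₀ * ‖Z ω t‖ ^ (2 * j) + θ / B₁ * ‖Z ω t‖ ^ (2 * (j + 1))) =
        B₀ ^ (1 - θ) * B₁ ^ θ * ((1 - θ) / B₀ * (∫ t in (0 : ℝ)..T, ‖Z ω t‖ ^ (2 * j)) +
          θ / B₁ * ∫ t in (0 : ℝ)..T, ‖Z ω t‖ ^ (2 * (j + 1))) := by
      rw [intervalIntegral.integral_const_mul, intervalIntegral.integral_add (i0.const_mul _)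
        (i1.const_mul _), intervalIntegral.integral_const_mul, intervalIntegral.integral_const_mul]
    refine (intervalIntegral.integral_mono_on hT hii
      (((i0.const_mul _).add (i1.const_mul _)).const_mul _) fun t _ => hpt t).trans ?_
    rw [hint]
    have h4 : (1 - θ) / B₀ * (∫ t in (0 : ℝ)..T, ‖Z ω t‖ ^ (2 * j)) +
          θ / B₁ * ∫ t in (0 : ℝ)..T, ‖Z ω t‖ ^ (2 * (j + 1)) ≤ 1 := by
      have e1 : (1 - θ) / B₀ * (∫ t in (0 : ℝ)..T, ‖Z ω t‖ ^ (2 * j)) ≤ (1 - θ) / B₀ * B₀ :=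
        mul_le_mul_of_nonneg_left hb0 (by
          have : 0 ≤ 1 - θ := by linarith
          positivity)
      have e2 : θ / B₁ * (∫ t in (0 : ℝ)..T, ‖Z ω t‖ ^ (2 * (j + 1))) ≤ θ / B₁ * B₁ :=
        mul_le_mul_of_nonneg_left hb1 (by positivity)
      rw [div_mul_cancel₀ _ hB0.ne'] at e1
      rw [div_mul_cancel₀ _ hB1.ne'] at e2
      linarith
    exact mul_le_of_le_one_right hC.le h4
  · rw [intervalIntegral.integral_undef hii]
    exact hC.le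

end Pool.Agent.Q137.MK
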