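import Pool.Agent.Q137.MK.Base

/-!
# Project MK: SUP
-/

set_option autoImplicit false

open MeasureTheory Finset

namespace Pool.Agent.Q137.MK

open Q289.PAM Pool.Agent.Q255.RM Pool.Agent.Q255.MK

lemma sobolev {h h' q : ℝ → ℝ} (hd : ∀ x, HasDerivAt h (h' x) x) (hc : Continuous h)
    (hc' : Continuous h') (hq : Continuous q) (hle : ∀ x, |h' x| ≤ q x) (a t : ℝ)
    (ht : t ∈ Set.Icc a (a + 1)) : h t ≤ ∫ s in a..(a + 1), (h s + q s) := by
  have hab : a ≤ a + 1 := by linarith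
  have h1 : ∀ s ∈ Set.Icc a (a + 1), h t ≤ h s + ∫ x in a..(a + 1), q x := by
    intro s hs
    have e1 : ∫ x in s..t, h' x = h t - h s :=
      intervalIntegral.integral_eq_sub_of_hasDerivAt (fun x _ => hd x) (hc'.intervalIntegrable _ _)
    have e2 : ‖∫ x in s..t, h' x‖ ≤ ∫ x in Set.uIoc s t, ‖h' x‖ :=
      intervalIntegral.norm_integral_le_integral_norm_uIoc
    have hsub : Set.uIoc s t ⊆ Set.Ioc a (a + 1) := by
      rw [Set.uIoc]
      exact Set.Ioc_subset_Ioc (le_min hs.1 ht.1) (max_le hs.2 ht.2)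
    have e3 : ∫ x in Set.uIoc s t, ‖h' x‖ ≤ ∫ x in Set.Ioc a (a + 1), q x := by
      have i1 : IntegrableOn q (Set.Ioc a (a + 1)) :=
        (hq.integrableOn_Icc).mono_set Set.Ioc_subset_Icc_self
      have i2 : IntegrableOn (fun x => ‖h' x‖) (Set.Ioc a (a + 1)) :=
        (hc'.norm.integrableOn_Icc).mono_set Set.Ioc_subset_Icc_self
      refine (setIntegral_mono_on (i2.mono_set hsub) (i1.mono_set hsub) measurableSet_uIoc
        fun x _ => hle x).trans ?_
      refine setIntegral_mono_set i1 ?_ (Filter.Eventually.of_forall hsub)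
      exact Filter.Eventually.of_forall fun x => (abs_nonneg _).trans (hle x)
    rw [intervalIntegral.integral_of_le hab]
    have e4 : h t - h s ≤ ‖∫ x in s..t, h' x‖ := by
      rw [e1]
      exact le_abs_self _
    linarith
  have h2 : ∫ _s in a..(a + 1), h t ≤ ∫ s in a..(a + 1), (h s + ∫ x in a..(a + 1), q x) := by
    refine intervalIntegral.integral_mono_on hab (by simp) ?_ h1
    exact (hc.add continuous_const).intervalIntegrable _ _
  rw [intervalIntegral.integral_const, intervalIntegral.integral_add (hc.intervalIntegrable _ _)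
    (by simp), intervalIntegral.integral_const] at h2
  rw [intervalIntegral.integral_add (hc.intervalIntegrable _ _) (hq.intervalIntegrable _ _)]
  simpa using h2

lemma g_deriv {n : ℕ} (hn : n ≠ 0) (t : ℝ) :
    HasDerivAt (fun t : ℝ => g t n) ((-Real.log n * Complex.I) * g t n) t := by
  have h : (fun t : ℝ => g t n) = fun t => ((Real.sqrt n)⁻¹ : ℝ) *
      Complex.exp ((-(t * Real.log n) : ℝ) * Complex.I) := funext fun t => g_eq_exp t hn
  rw [g_eq_exp t hn, h]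
  have h1 : HasDerivAt (fun t : ℝ => (((-(t * Real.log n) : ℝ) : ℂ) * Complex.I))
      ((-Real.log n : ℝ) * Complex.I) t := by
    have h2 : HasDerivAt (fun t : ℝ => (-(t * Real.log n) : ℝ)) (-Real.log n) t := by
      have h4 : HasDerivAt (fun y : ℝ => y * Real.log n) (1 * Real.log n) t :=
        (hasDerivAt_id t).mul_const (Real.log n)
      rw [one_mul] at h4
      exact h4.fun_neg
    exact h2.ofReal_comp.mul_const Complex.I
  have h3 := (h1.cexp).const_mul (((Real.sqrt n)⁻¹ : ℝ) : ℂ)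
  refine h3.congr_deriv ?_
  push_cast
  ring

lemma Pw_deriv (c : ℕ → ℂ) (M : ℕ) (ω : Om) (t : ℝ) :
    HasDerivAt (fun t => Pw c M ω t)
      (Pw (fun m => c m * (-Real.log m * Complex.I)) M ω t) t := by
  unfold Pw
  refine HasDerivAt.fun_sum fun m hm => ?_
  rw [Finset.mem_Icc] at hm
  have h1 := ((g_deriv (n := m) (by omega) t).const_mul (c m)).mul_const (f ω m)
  refine h1.congr_deriv ?_
  ring

lemma sup_lam (k N : ℕ) (a V lam : ℝ) (hN : 1 ≤ N) (hV : 0 < V) (hl : 0 < lam)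
    (hl2 : k * Real.log N ≤ lam) :
    PT.real {ω | ∃ t ∈ Set.Icc a (a + 1), V ≤ ‖∑ n ∈ Icc 1 N, f ω n * g t n‖} ≤
      (1 + 2 * lam) * D k N / V ^ (2 * k) := by
  obtain ⟨c, hc⟩ : ∃ c : ℕ → ℂ, c = fun m => (dk k N m : ℂ) := ⟨_, rfl⟩
  obtain ⟨c', hc'⟩ : ∃ c' : ℕ → ℂ, c' = fun m => c m * (-Real.log m * Complex.I) := ⟨_, rfl⟩
  obtain ⟨G, hG⟩ : ∃ G : Om → ℝ, G = fun ω =>
    (1 + lam) * Gi c (N ^ k) a (a + 1) ω + lam⁻¹ * Gi c' (N ^ k) a (a + 1) ω := ⟨_, rfl⟩
  have hGc : Continuous G := by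
    rw [hG]
    exact (continuous_const.mul (Gi_cont _ _ _ _)).add (continuous_const.mul (Gi_cont _ _ _ _))
  have hGi0 : ∀ (d : ℕ → ℂ) (ω : Om), 0 ≤ Gi d (N ^ k) a (a + 1) ω := fun d ω =>
    intervalIntegral.integral_nonneg (by linarith) fun t _ => by positivity
  have hG0 : ∀ ω, 0 ≤ G ω := by
    intro ω
    rw [hG]
    have h1 := hGi0 c ω
    have h2 := hGi0 c' ω
    positivity
  have hsub : {ω : Om | ∃ t ∈ Set.Icc a (a + 1), V ≤ ‖∑ n ∈ Icc 1 N, f ω n * g t n‖} ⊆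
      {ω | V ^ (2 * k) ≤ G ω} := by
    rintro ω ⟨t, ht, hVt⟩
    have h1 : V ^ (2 * k) ≤ ‖Pw c (N ^ k) ω t‖ ^ 2 := by
      rw [hc, ← S_norm]
      exact pow_le_pow_left₀ hV.le hVt _
    have hd : ∀ x, HasDerivAt (fun s => ‖Pw c (N ^ k) ω s‖ ^ 2)
        (2 * inner ℝ (Pw c (N ^ k) ω x) (Pw c' (N ^ k) ω x)) x := by
      intro x
      have h2 := Pw_deriv c (N ^ k) ω x
      rw [← hc'] at h2
      exact h2.norm_sq
    have c1 := Pw_cont_t c (N ^ k) ω
    have c2 := Pw_cont_t c' (N ^ k) ω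
    have h3 := sobolev (q := fun s => lam * ‖Pw c (N ^ k) ω s‖ ^ 2 +
      lam⁻¹ * ‖Pw c' (N ^ k) ω s‖ ^ 2) hd (c1.norm.pow 2) (continuous_const.mul (c1.inner c2))
      ((continuous_const.mul (c1.norm.pow 2)).add (continuous_const.mul (c2.norm.pow 2)))
      (fun x => by
        have e1 := abs_real_inner_le_norm (Pw c (N ^ k) ω x) (Pw c' (N ^ k) ω x)
        rw [abs_mul, abs_two]
        obtain ⟨u, hu⟩ : ∃ u : ℝ, u = ‖Pw c (N ^ k) ω x‖ := ⟨_, rfl⟩
        obtain ⟨v, hv⟩ : ∃ v : ℝ, v = ‖Pw c' (N ^ k) ω x‖ := ⟨_, rfl⟩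
        rw [← hu, ← hv] at e1 ⊢
        have e2 : 2 * (u * v) ≤ lam * u ^ 2 + lam⁻¹ * v ^ 2 := by
          have e3 : 0 ≤ lam⁻¹ * (lam * u - v) ^ 2 := by positivity
          have e4 : lam⁻¹ * (lam * u - v) ^ 2 = lam * u ^ 2 + lam⁻¹ * v ^ 2 - 2 * (u * v) := by
            field_simp
            ring
          linarith
        linarith) a t ht
    show V ^ (2 * k) ≤ G ω
    refine (h1.trans h3).trans (le_of_eq ?_)
    rw [hG]
    unfold Gi
    have i1 : IntervalIntegrable (fun s => ‖Pw c (N ^ k) ω s‖ ^ 2) volume a (a + 1) :=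
      (c1.norm.pow 2).intervalIntegrable a (a + 1)
    have i2 : IntervalIntegrable (fun s => ‖Pw c' (N ^ k) ω s‖ ^ 2) volume a (a + 1) :=
      (c2.norm.pow 2).intervalIntegrable a (a + 1)
    have e5 : ∀ s, ‖Pw c (N ^ k) ω s‖ ^ 2 + (lam * ‖Pw c (N ^ k) ω s‖ ^ 2 +
        lam⁻¹ * ‖Pw c' (N ^ k) ω s‖ ^ 2) =
        (1 + lam) * ‖Pw c (N ^ k) ω s‖ ^ 2 + lam⁻¹ * ‖Pw c' (N ^ k) ω s‖ ^ 2 := fun s => by ring
    simp_rw [e5]
    rw [intervalIntegral.integral_add (i1.const_mul _) (i2.const_mul _),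
      intervalIntegral.integral_const_mul, intervalIntegral.integral_const_mul]
  refine (measureReal_mono hsub).trans ((markov hGc hG0 (by positivity)).trans ?_)
  refine div_le_div_of_nonneg_right ?_ (by positivity)
  have hi1 : Integrable (fun ω => (1 + lam) * Gi c (N ^ k) a (a + 1) ω) PT :=
    integrable_of_cont (continuous_const.mul (Gi_cont _ _ _ _))
  have hi2 : Integrable (fun ω => lam⁻¹ * Gi c' (N ^ k) a (a + 1) ω) PT :=
    integrable_of_cont (continuous_const.mul (Gi_cont _ _ _ _))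
  rw [hG, integral_add hi1 hi2, integral_const_mul, integral_const_mul,
    Gi_int c _ (by linarith), Gi_int c' _ (by linarith)]
  have hD : ∑ m ∈ Icc 1 (N ^ k), ‖c m‖ ^ 2 / m = D k N := by
    rw [hc, ← D_eq]
  have hD' : ∑ m ∈ Icc 1 (N ^ k), ‖c' m‖ ^ 2 / m ≤ lam ^ 2 * D k N := by
    rw [← hD, Finset.mul_sum]
    refine Finset.sum_le_sum fun m hm => ?_
    rw [Finset.mem_Icc] at hm
    have hm0 : (1 : ℝ) ≤ m := by exact_mod_cast hm.1
    have hlog0 : 0 ≤ Real.log m := Real.log_nonneg hm0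
    have hlog : Real.log m ≤ lam := by
      refine le_trans ?_ hl2
      rw [← Real.log_pow]
      refine Real.log_le_log (by linarith) ?_
      exact_mod_cast hm.2
    have e1 : ‖c' m‖ ^ 2 = ‖c m‖ ^ 2 * Real.log m ^ 2 := by
      rw [hc']
      simp only [norm_mul, norm_neg, Complex.norm_I, mul_one, Complex.norm_real, Real.norm_eq_abs]
      rw [mul_pow, sq_abs]
    rw [e1, ← mul_div_assoc]
    refine div_le_div_of_nonneg_right ?_ (by linarith)
    rw [mul_comm]
    refine mul_le_mul_of_nonneg_right ?_ (by positivity)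
    exact pow_le_pow_left₀ hlog0 hlog 2
  rw [hD]
  have e2 : lam⁻¹ * ((a + 1 - a) * ∑ m ∈ Icc 1 (N ^ k), ‖c' m‖ ^ 2 / m) ≤ lam * D k N := by
    rw [add_sub_cancel_left, one_mul]
    refine (mul_le_mul_of_nonneg_left hD' (by positivity)).trans (le_of_eq ?_)
    field_simp
  rw [add_sub_cancel_left, one_mul] at *
  linarith

/-- **SUP** -/
theorem sup : S_SUP := by
  intro k N a V hk hN hV
  have hk0 : (0 : ℝ) ≤ k * Real.log N :=
    mul_nonneg (Nat.cast_nonneg _) (Real.log_natCast_nonneg _)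
  have hD0 := D_nonneg k N
  have key : ∀ ε : ℝ, 0 < ε →
      PT.real {ω | ∃ t ∈ Set.Icc a (a + 1), V ≤ ‖∑ n ∈ Icc 1 N, f ω n * g t n‖} ≤
      (1 + 2 * k * Real.log N) * D k N / V ^ (2 * k) + ε * (2 * D k N / V ^ (2 * k)) := by
    intro ε hε
    refine (sup_lam k N a V (k * Real.log N + ε) hN hV (by linarith) (by linarith)).trans
      (le_of_eq ?_)
    ring
  refine le_of_forall_pos_le_add fun δ hδ => ?_
  have hq : 0 ≤ 2 * D k N / V ^ (2 * k) := by positivity
  have h1 := key (δ / (2 * D k N / V ^ (2 * k) + 1)) (by positivity)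
  refine h1.trans ?_
  have h2 : δ / (2 * D k N / V ^ (2 * k) + 1) * (2 * D k N / V ^ (2 * k)) ≤ δ := by
    rw [div_mul_eq_mul_div, div_le_iff₀ (by linarith)]
    nlinarith
  linarith

end Pool.Agent.Q137.MK
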